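import Mathlib
import Pool.Agent.H22.Lev1

set_option autoImplicit false
open MeasureTheory ProbabilityTheory Set Filter Topology Real

namespace Pool.Agent.Results.MP_207c40_pr.Counter
noncomputable section

/-- Shannon entropy `E[-log p{Y}]` of a law `p` (infinite if `p` is not purely atomic). -/
def shannon {E : Type} [MeasurableSpace E] (p : Measure E) : ENNReal :=
  ∫⁻ a, (-(p {a}).log).toENNReal ∂p

/-- Coding window at `y`: least `r` such that `y` on `[-r, r]` determines `φ y 0` almost surely. -/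
def window {E S : Type} [MeasurableSpace E] (P : Measure (ℤ → E)) (φ : (ℤ → E) → ℤ → S)
    (y : ℤ → E) : ℕ∞ :=
  ⨅ (r : ℕ) (_ : ∀ᵐ y' ∂P, (∀ i : ℤ, |i| ≤ r → y' i = y i) → φ y' 0 = φ y 0), (r : ℕ∞)

lemma degen {E : Type} [MeasurableSpace E] (p : Measure E) [IsProbabilityMeasure p] (ξ : E → ℝ)
    (hξ : Measurable ξ) (B : ℝ) (hB : 0 < B) (h : ∀ n : ℕ, ∫⁻ y, ENNReal.ofReal
      |∑ i ∈ Finset.range (n + 1), ξ (y (i : ℤ))| ∂(Measure.infinitePi fun _ : ℤ => p) ≤ .ofReal B)
    (a : E) (ha : p {a} ≠ 0) : ξ a = 0 := by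
  have h1 : ∀ θ : ℝ, |θ| ≤ 1 / (2 * B) → cos (θ * ξ a) = 1 := by
    intro θ hθ
    set z := ∫ a, Complex.exp (Complex.I * (θ * ξ a : ℝ)) ∂p with hz
    have h2 : ∀ n, ‖z ^ n - 1‖ ≤ 1 / 2 := by
      rintro (_ | n)
      · simp
      have h3 := Pool.Agent.H22.Lev.int_prod (fun _ : ℤ => p)
        ((Finset.range (n + 1)).map Nat.castEmbedding)
        (fun _ a => Complex.exp (Complex.I * (θ * ξ a : ℝ))) fun _ => by fun_prop
      simp only [Finset.prod_map, Finset.prod_const, Finset.card_map, Finset.card_range, Nat.castEmbedding_apply,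
        ← Complex.exp_sum, ← Finset.mul_sum, ← Complex.ofReal_sum] at h3
      rw [← h3, show (1 : ℂ) = ∫ _, 1 ∂(Measure.infinitePi fun _ : ℤ => p) by simp,
        ← integral_sub (.of_bound (Measurable.aestronglyMeasurable (by fun_prop)) 1
          (ae_of_all _ fun y => by rw [Complex.norm_exp_I_mul_ofReal])) (integrable_const _)]
      refine (norm_integral_le_lintegral_norm _).trans (ENNReal.toReal_le_of_le_ofReal (by norm_num)
        ((lintegral_mono fun y => ENNReal.ofReal_le_ofReal
          Real.norm_exp_I_mul_ofReal_sub_one_le).trans ?_))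
      simp only [Real.norm_eq_abs, abs_mul, ENNReal.ofReal_mul (abs_nonneg θ)]
      rw [lintegral_const_mul' _ _ ENNReal.ofReal_ne_top]
      refine (mul_le_mul' (ENNReal.ofReal_le_ofReal hθ) (h n)).trans_eq ?_
      rw [← ENNReal.ofReal_mul (by positivity)]
      congr 1; field_simp
    have h3 : z = 1 := by
      rw [← sub_eq_zero, ← norm_le_zero_iff]
      refine ge_of_tendsto tendsto_one_div_atTop_nhds_zero_nat ?_
      filter_upwards [eventually_gt_atTop 0] with N hN
      have h4 := norm_sum_le_of_le (Finset.range N) fun k _ => h2 k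
      have h5 := norm_sub_norm_le (N : ℂ) (∑ k ∈ Finset.range N, z ^ k)
      have h6 := h2 N
      rw [← geom_sum_mul, norm_mul] at h6
      rw [Finset.sum_sub_distrib, norm_sub_rev] at h4
      simp only [Finset.sum_const, Finset.card_range, nsmul_eq_mul, mul_one, Complex.norm_natCast]
        at h4 h5
      rw [le_div_iff₀ (by exact_mod_cast hN)]
      nlinarith [norm_nonneg (z - 1)]
    have h4 : Integrable (fun a => cos (θ * ξ a)) p :=
      .of_bound (by fun_prop) 1 (ae_of_all _ fun _ => abs_cos_le_one _)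
    have h5 : ∫ a, cos (θ * ξ a) ∂p = 1 := by
      have := congrArg Complex.re (hz.symm.trans h3)
      rw [← RCLike.re_to_complex, ← integral_re (.of_bound (by fun_prop) 1 (ae_of_all _ fun y => by
          rw [Complex.norm_exp_I_mul_ofReal]))] at this
      simpa only [RCLike.re_to_complex, mul_comm Complex.I, Complex.exp_ofReal_mul_I_re,
        Complex.one_re] using this
    have h6 := (integral_eq_zero_iff_of_nonneg (f := fun a => 1 - cos (θ * ξ a))
      (fun a => sub_nonneg.2 (cos_le_one _)) ((integrable_const _).sub h4)).1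
      (by rw [integral_sub (integrable_const _) h4, h5]; simp)
    by_contra h7
    refine ha (measure_mono_null (t := {b | ¬ (1 - cos (θ * ξ b) = 0)}) (fun b hb h => h7 ?_) h6)
    rw [← hb]; exact (sub_eq_zero.1 h).symm
  by_contra h2
  have h3 : 0 < |ξ a| := abs_pos.2 h2
  have h4 : 0 < min (1 / (2 * B)) (1 / |ξ a|) := by positivity
  have h5 : |min (1 / (2 * B)) (1 / |ξ a|) * ξ a| ≤ 1 := by
    rw [abs_mul, abs_of_pos h4, ← le_div_iff₀ h3]; exact min_le_right _ _
  have := (cos_eq_one_iff_of_lt_of_lt (by linarith [(abs_le.1 h5).1, pi_gt_three])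
    (by linarith [(abs_le.1 h5).2, pi_gt_three])).1 (h1 _ ((abs_of_pos h4).trans_le (min_le_left _ _)))
  exact h2 ((mul_eq_zero.1 this).resolve_left h4.ne')

theorem result : ∃ (ν : Fin 2 → ℝ) (Q : Matrix (Fin 2) (Fin 2) ℝ),
    (∀ i, 0 < ν i) ∧ ∑ i, ν i = 1 ∧ (∀ i j, 0 ≤ Q i j) ∧ (∀ i, ∑ j, Q i j = 1) ∧
    Matrix.vecMul ν Q = ν ∧ (∀ i j, 0 < (Q ^ 2) i j) ∧
    ∀ (E : Type) [MeasurableSpace E] [MeasurableSingletonClass E] (p : Measure E)
      [IsProbabilityMeasure p] (φ : (ℤ → E) → ℤ → Fin 2), Measurable φ →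
      (∀ k : ℤ, ∀ᵐ y ∂(Measure.infinitePi fun _ : ℤ => p),
        φ (fun j => y (j + k)) = fun j => φ y (j + k)) →
      (∀ (a : ℤ) (n : ℕ) (w : ℕ → Fin 2), (Measure.infinitePi fun _ : ℤ => p).real
        {y | ∀ j ≤ n, φ y (a + j) = w j} = ν (w 0) * ∏ j ∈ Finset.range n, Q (w j) (w (j + 1))) →
      shannon p = ENNReal.ofReal (∑ i, ν i * ∑ j, negMulLog (Q i j)) →
      ∑' r : ℕ, (Measure.infinitePi fun _ : ℤ => p)
        {y | (r : ℕ∞) < window (Measure.infinitePi fun _ : ℤ => p) φ y} = ⊤ := by
  obtain ⟨g, g1, g2, hg⟩ : ∃ g : ℝ, 1 < g ∧ g < 2 ∧ g ^ 2 = g + 1 :=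
    ⟨_, one_lt_goldenRatio, goldenRatio_lt_two, goldenRatio_sq⟩
  have g0 : 0 < g := by linarith
  have gl := log_pos g1
  refine ⟨![g ^ 2 / (1 + g ^ 2), 1 / (1 + g ^ 2)], !![g⁻¹, (g ^ 2)⁻¹; 1, 0], ?_, ?_, ?_, ?_, ?_, ?_,
    fun E _ _ p _ φ _ hs hM hH => ?_⟩
  · simp [Fin.forall_fin_two]; constructor <;> positivity
  · simp; field_simp; ring
  · simp [Fin.forall_fin_two]; constructor <;> positivity
  · simp [Fin.forall_fin_two]; field_simp; linarith
  · ext i; fin_cases i <;> simp [Matrix.vecMul, dotProduct] <;> field_simp; linarith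
  · simp [Fin.forall_fin_two, pow_two]; refine ⟨⟨?_, ?_⟩, ?_, ?_⟩ <;> positivity
  set P := Measure.infinitePi fun _ : ℤ => p
  by_contra hT
  have h1 : ∀ (n : ℕ) (w : ℕ → Fin 2), P.real {y | ∀ j ≤ n, φ y j = w j} ≤ g / g ^ n := by
    intro n w
    let r : Fin 2 → ℝ := ![g, 1]
    have hr : ∀ i, 1 ≤ r i ∧ r i ≤ g := by simp [r, Fin.forall_fin_two, g1.le]
    have h2 : ∀ i j, !![g⁻¹, (g ^ 2)⁻¹; 1, 0] i j * (r i * g) ≤ r j := by
      simp only [Fin.forall_fin_two, r]
      simp
      refine ⟨?_, ?_⟩ <;> field_simp <;> rfl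
    have h3 : ∏ j ∈ Finset.range n, !![g⁻¹, (g ^ 2)⁻¹; 1, 0] (w j) (w (j + 1)) ≤ r (w n) / g ^ n := by
      induction n with
      | zero => simpa using (hr _).1
      | succ n ih =>
        rw [Finset.prod_range_succ, le_div_iff₀ (by positivity)]
        refine le_trans ?_ (h2 (w n) _)
        rw [le_div_iff₀ (by positivity)] at ih
        have h4 : 0 ≤ !![g⁻¹, (g ^ 2)⁻¹; 1, 0] (w n) (w (n + 1)) * g := by
          generalize w n = i; generalize w (n + 1) = j
          fin_cases i <;> fin_cases j <;> simp <;> positivity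
        rw [pow_succ g n]
        linarith [mul_le_mul_of_nonneg_left ih h4]
    have h4 := hM 0 n w
    simp only [zero_add] at h4
    rw [h4, ← one_mul (g / _)]
    refine mul_le_mul ?_ (h3.trans (by gcongr; exact (hr _).2)) (Finset.prod_nonneg fun j _ => ?_)
      zero_le_one
    · generalize w 0 = i
      fin_cases i <;> simp [div_le_one, inv_le_one₀, add_pos_of_pos_of_nonneg, sq_nonneg]
    · generalize w j = i; generalize w (j + 1) = j
      fin_cases i <;> fin_cases j <;> simp <;> positivity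
  have hH' : shannon p = .ofReal (log g) := by
    rw [hH]; congr 1
    simp [negMulLog]; field_simp; rw [hg]; ring
  have hm : Measurable fun a => p {a} := measurable_zero.measurable_of_countable_ne
    ((Measure.countable_meas_level_set_pos (μ := p) measurable_id).mono fun a ha =>
      pos_iff_ne_zero.2 (Ne.symm ha))
  have hat : ∀ᵐ a ∂p, p {a} ≠ 0 := by
    filter_upwards [ae_lt_top (ENNReal.measurable_log.comp hm).neg.ereal_toENNReal (hH'.trans_ne ENNReal.ofReal_ne_top)] with a ha h
    simp [h] at ha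
  let η : E → ℝ := fun a => -log (p.real {a})
  have hη : Measurable η := hm.ennreal_toReal.log.neg
  have hη0 : ∀ a, 0 ≤ η a := fun a => neg_nonneg.2 (log_nonpos measureReal_nonneg measureReal_le_one)
  have h2 : ∫⁻ a, ENNReal.ofReal (η a) ∂p = .ofReal (log g) := by
    rw [← hH']
    refine lintegral_congr_ae (hat.mono fun a ha => ?_)
    simp only [ENNReal.log_pos_real ha (measure_ne_top _ _), ← EReal.coe_neg, EReal.real_coe_toENNReal]
    rfl
  have hi : Integrable η p := ⟨hη.aestronglyMeasurable,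
    (hasFiniteIntegral_iff_ofReal (ae_of_all _ hη0)).2 (h2.trans_lt ENNReal.ofReal_lt_top)⟩
  have h3 : ∫ a, η a ∂p = log g := by
    rw [integral_eq_lintegral_of_nonneg_ae (ae_of_all _ hη0) hi.1, h2, ENNReal.toReal_ofReal gl.le]
  have hσ : ∀ k : ℤ, MeasurePreserving (fun (y : ℤ → E) j => y (j + k)) P P := fun k => by
    have := Measure.infinitePi_map_piCongrLeft (fun _ : ℤ => p) (Equiv.addRight k)
    exact (MeasurePreserving.symm _ ⟨(MeasurableEquiv.piCongrLeft (fun _ => E)
      (Equiv.addRight k)).measurable, this⟩)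
  have hev : ∀ i : ℤ, MeasurePreserving (fun y : ℤ → E => y i) P p := fun i =>
    measurePreserving_eval_infinitePi _ i
  let A : ℕ → Set (ℤ → E) := fun r => toMeasurable P {y | (r : ℕ∞) < window P φ y}
  have hA : ∀ r, MeasurableSet (A r) := fun r => measurableSet_toMeasurable _ _
  let B : ℝ := ∑' r, P.real (A r)
  have hB : Summable fun r => P.real (A r) := by
    simpa only [A, Measure.real, measure_toMeasurable] using ENNReal.summable_toReal hT
  have hB0 : 0 ≤ B := tsum_nonneg fun _ => measureReal_nonneg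
  have h4 := degen p (fun a => η a - log g) (hη.sub_const _) (4 * B + 4) (by positivity) fun n => ?_
  · have h5 : ∀ a, p {a} ≠ 0 → p.real {a} = g⁻¹ := fun a ha => by
      rw [Measure.real, ← exp_log (ENNReal.toReal_pos ha (measure_ne_top _ _)), ← exp_log g0, ← exp_neg]
      congr 1; exact neg_eq_iff_eq_neg.1 (sub_eq_zero.1 (h4 a ha))
    obtain ⟨a, ha⟩ := hat.exists
    have h6 : g⁻¹ < 1 := inv_lt_one_of_one_lt₀ g1
    have h7 : 1 / 2 < g⁻¹ := by rw [one_div]; gcongr
    obtain ⟨b, hb, hb'⟩ := Measure.exists_mem_of_measure_ne_zero_of_ae (s := {a}ᶜ) (fun h => by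
      have := probReal_compl_eq_one_sub (μ := p) (measurableSet_singleton a)
      rw [Measure.real, h, h5 a ha] at this
      simp at this; linarith) (ae_restrict_of_ae hat)
    have h8 := measureReal_union (μ := p) (disjoint_singleton.2 (Ne.symm hb)) (measurableSet_singleton b)
    linarith [measureReal_le_one (μ := p) (s := {a} ∪ {b}), h5 a ha, h5 b hb']
  classical
  let D : ℕ → Set (ℤ → E) := fun i => (fun y j => y (j + i)) ⁻¹' A (min i (n - i))
  have hD : ∀ i, MeasurableSet (D i) := fun i => (hσ i).measurable (hA _)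
  let K : (ℤ → E) → ℝ := fun y => ∑ i ∈ Finset.range (n + 1), (D i).indicator 1 y
  have hK : Integrable K P := integrable_finsetSum _ fun i _ => (integrable_const 1).indicator (hD i)
  have hS : ∀ i : ℤ, Integrable (fun y : ℤ → E => η (y i) - log g) P := fun i =>
    ((hev i).integrable_comp_of_integrable hi).sub (integrable_const _)
  have h5 : ∫ y, K y ∂P ≤ 2 * B := by
    rw [integral_finsetSum _ fun i _ => (integrable_const 1).indicator (hD i)]
    calc _ ≤ ∑ i ∈ Finset.range (n + 1), (P.real (A i) + P.real (A (n + 1 - 1 - i))) := by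
          refine Finset.sum_le_sum fun i _ => ?_
          rw [integral_indicator_one (hD i), (hσ i).measureReal_preimage (hA _).nullMeasurableSet]
          rcases min_choice i (n - i) with h | h <;> rw [h] <;> simp [measureReal_nonneg]
      _ ≤ _ := by
          rw [Finset.sum_add_distrib, Finset.sum_range_reflect fun i => P.real (A i), ← two_mul]
          gcongr
          exact hB.sum_le_tsum _ fun _ _ => measureReal_nonneg
  have h6 : ∫ y, ∑ i ∈ Finset.range (n + 1), (η (y (i : ℤ)) - log g) ∂P = 0 := by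
    rw [integral_finsetSum _ fun i _ => hS _]
    refine Finset.sum_eq_zero fun i _ => ?_
    rw [← integral_map (f := fun a => η a - log g) (hev i).measurable.aemeasurable
      (hη.sub_const _).aestronglyMeasurable, (hev i).map_eq, integral_sub hi (integrable_const _), h3]
    simp
  have h7 := integrable_finsetSum (Finset.range (n + 1)) fun (i : ℕ) _ => hS i
  rw [← ofReal_integral_eq_lintegral_ofReal h7.abs (ae_of_all _ fun _ => abs_nonneg _)]
  refine ENNReal.ofReal_le_ofReal ((integral_mono_ae h7.abs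
    (h7.add ((hK.add (integrable_const 2)).const_mul 2)) ?_).trans ?_)
  swap
  · simp only [Pi.add_apply]
    rw [integral_add h7 ((hK.fun_add (integrable_const 2)).const_mul 2), h6, integral_const_mul,
      integral_add hK (integrable_const 2)]
    simp; linarith
  filter_upwards [ae_all_iff.2 fun i : ℤ => (hev i).quasiMeasurePreserving.ae hat] with y hy
  let W := Fintype.piFinset fun i : Fin (n + 1) =>
    if y ∈ D i then Finset.univ else {φ (fun j => y (j + (i : ℕ))) 0}
  have h8 : ∏ i ∈ Finset.range (n + 1), p.real {y i} ≤ W.card * (g / g ^ n) := by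
    have h9 := Measure.infinitePi_pi (fun _ : ℤ => p) (s := (Finset.range (n + 1)).map
      Nat.castEmbedding) (t := fun i => {y i}) fun _ _ => measurableSet_singleton _
    simp only [Finset.prod_map, Nat.castEmbedding_apply] at h9
    simp only [Measure.real, ← ENNReal.toReal_prod, ← h9]
    refine (ENNReal.toReal_mono (measure_ne_top _ _) (measure_mono_ae (t := ⋃ w ∈ W,
      {y' | ∀ j ≤ n, φ y' j = w (Fin.ofNat _ j)}) ?_)).trans
      ((measureReal_biUnion_finset_le _ _).trans ((Finset.sum_le_card_nsmul _ _ _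
        fun w _ => h1 n _).trans_eq (nsmul_eq_mul _ _)))
    have h10 : ∀ i : Fin (n + 1), ∀ᵐ y' ∂P, y ∉ D i → (∀ j ≤ n, y' (j : ℕ) = y j) →
        φ y' (i : ℕ) = φ (fun j => y (j + (i : ℕ))) 0 := by
      intro i
      by_cases h : y ∈ D i
      · simp [h]
      have h11 := mt (fun h => subset_toMeasurable P _ h) h
      simp only [mem_ofPred_eq, not_lt, window] at h11
      have h12 := h11.trans_lt (ENat.natCast_lt_natCast.2 (Nat.lt_succ_self _))
      simp only [iInf_lt_iff, ENat.natCast_lt_natCast] at h12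
      obtain ⟨r, h12, hr⟩ := h12
      filter_upwards [(hσ (i : ℕ)).quasiMeasurePreserving.ae h12, hs (i : ℕ)] with y' h13 h14 _ h15
      rw [← h13 fun j hj => ?_, h14]
      · simp
      have := i.2
      obtain ⟨k, hk⟩ := Int.eq_ofNat_of_zero_le (a := j + (i : ℕ)) (by have := abs_le.1 hj; omega)
      rw [hk]
      exact h15 k (by have := abs_le.1 hj; omega)
    filter_upwards [ae_all_iff.2 h10] with y' h11 h12
    refine mem_iUnion₂.2 ⟨fun i => φ y' (i : ℕ), Fintype.mem_piFinset.2 fun i => ?_, fun j hj => ?_⟩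
    · split_ifs with h
      · exact Finset.mem_univ _
      · exact Finset.mem_singleton.2 (h11 i h fun j hj => h12 _ (Finset.mem_coe.2
          (Finset.mem_map_of_mem _ (Finset.mem_range.2 (by omega)))))
    · simp [Nat.mod_eq_of_lt (Nat.lt_succ_of_le hj)]
  have h9 : (W.card : ℝ) ≤ exp (K y) := by
    simp only [W, K, Fintype.card_piFinset, Nat.cast_prod, exp_sum, Finset.prod_range]
    refine Finset.prod_le_prod (fun _ _ => Nat.cast_nonneg _) fun i _ => ?_
    by_cases h : y ∈ D i <;> simp [h]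
    linarith [add_one_le_exp 1]
  have h10 : ∀ i : ℤ, 0 < p.real {y i} := fun i => ENNReal.toReal_pos (hy i) (measure_ne_top _ _)
  have h11 := log_le_log (Finset.prod_pos fun i _ => h10 _)
    (h8.trans (mul_le_mul_of_nonneg_right h9 (by positivity)))
  rw [log_prod fun i _ => (h10 _).ne', log_mul (exp_pos _).ne' (by positivity), log_exp,
    log_div g0.ne' (by positivity), log_pow] at h11
  have h12 : 0 ≤ K y := Finset.sum_nonneg fun i _ => indicator_nonneg (by simp) _
  have h13 := log_le_sub_one_of_pos g0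
  simp only [Pi.add_apply, η, Finset.sum_sub_distrib, Finset.sum_neg_distrib, Finset.sum_const,
    Finset.card_range, nsmul_eq_mul]
  push_cast
  rw [abs_le]
  constructor <;> linarith

end
end Pool.Agent.Results.MP_207c40_pr.Counter
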